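import Mathlib
import Pool.Agent.H892.VS.Stm
import Pool.Graph.R_pool_sql_team_seeded_1acbe0a2.Y45.HM.Sub

/-!
Generic freeness (project VS, helper892).
-/

set_option autoImplicit false
set_option linter.unusedSectionVars false

namespace Pool.Agent.H97.VS

open Pool.Agent.H892.VS
open Pool.Agent.Y45.HM (GF lc lc_mem)

section Gen

variable {A B M : Type} [CommRing A] [CommRing B] [Algebra A B] [AddCommGroup M] [Module A M]
  [Module B M] [IsScalarTower A B M]

/-- images of a section which is generically free -/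
theorem gf_map {τ : A} {L N X : Submodule A M} (h : GF τ L N) (g : M →ₗ[A] M)
    (hL : ∀ m ∈ N, m ∈ L ↔ g m ∈ X) : GF τ X (X ⊔ N.map g) := by
  classical
  obtain ⟨C, hC, h1, h2⟩ := h
  have hsec : ∀ y : M, ∃ b : M, y ∈ g '' C → b ∈ C ∧ g b = y := by
    intro y
    by_cases hy : y ∈ g '' C
    · obtain ⟨b, hb, hby⟩ := hy
      exact ⟨b, fun _ => ⟨hb, hby⟩⟩
    · exact ⟨0, fun h => absurd h hy⟩
  choose s hs using hsec
  have hlc : ∀ l : M →₀ A, lc (Finsupp.mapDomain g l) = g (lc l) := by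
    intro l
    rw [lc, Finsupp.linearCombination_mapDomain, lc, Finsupp.linearCombination_apply,
      Finsupp.linearCombination_apply, Finsupp.sum, Finsupp.sum, map_sum]
    exact Finset.sum_congr rfl fun a _ => (map_smul g (l a) a).symm
  refine ⟨g '' C, ?_, ?_, ?_⟩
  · rintro x ⟨b, hb, rfl⟩
    exact Submodule.mem_sup_right ⟨b, hC hb, rfl⟩
  · intro l hl hlX
    have hsup : ((Finsupp.mapDomain s l).support : Set M) ⊆ C := by
      intro a ha
      have h3 := Finsupp.mapDomain_support ha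
      rw [Finset.mem_image] at h3
      obtain ⟨y, hy, rfl⟩ := h3
      exact (hs y (hl hy)).1
    have hid : Finsupp.mapDomain g (Finsupp.mapDomain s l) = l := by
      rw [← Finsupp.mapDomain_comp]
      have h3 : Finsupp.mapDomain (g ∘ s) l = Finsupp.mapDomain id l :=
        Finsupp.mapDomain_congr fun y hy => (hs y (hl hy)).2
      rw [h3, Finsupp.mapDomain_id]
    have h4 : Finsupp.mapDomain s l = 0 := by
      apply h1 _ hsup
      rw [hL _ (lc_mem hC hsup), ← hlc, hid]
      exact hlX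
    rw [h4, Finsupp.mapDomain_zero] at hid
    exact hid.symm
  · intro y hy
    rw [Submodule.mem_sup] at hy
    obtain ⟨x, hx, z, ⟨m, hm, rfl⟩, rfl⟩ := hy
    obtain ⟨k, l, hl, hk⟩ := h2 _ hm
    refine ⟨k, Finsupp.mapDomain g l, ?_, ?_⟩
    · intro a ha
      have h3 := Finsupp.mapDomain_support ha
      rw [Finset.mem_image] at h3
      obtain ⟨b, hb, rfl⟩ := h3
      exact ⟨b, hl hb, rfl⟩
    · have hN : τ ^ k • m - lc l ∈ N := N.sub_mem (N.smul_mem _ hm) (lc_mem hC hl)
      have h3 := (hL _ hN).1 hk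
      rw [map_sub, map_smul] at h3
      rw [hlc, smul_add, add_sub_assoc]
      exact X.add_mem (X.smul_mem _ hx) h3

/-- multiplication by `b` -/
def mu (b : B) : M →ₗ[A] M where
  toFun m := b • m
  map_add' x y := smul_add b x y
  map_smul' a m := smul_comm b a m

theorem mu_apply (b : B) (m : M) : (mu b : M →ₗ[A] M) m = b • m := rfl

/-- stable under a subalgebra -/
def St (R : Subalgebra A B) (N : Submodule A M) : Prop := ∀ r ∈ R, ∀ x ∈ N, r • x ∈ N

theorem St.sup {R : Subalgebra A B} {N N' : Submodule A M} (h : St R N) (h' : St R N') :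
    St R (N ⊔ N') := by
  intro r hr x hx
  rw [Submodule.mem_sup] at hx ⊢
  obtain ⟨a, ha, b, hb, rfl⟩ := hx
  exact ⟨r • a, h r hr a ha, r • b, h' r hr b hb, (smul_add r a b).symm⟩

/-- the `R`-span of a set -/
def sp (R : Subalgebra A B) (F : Set M) : Submodule A M :=
  Submodule.span A {a | ∃ g ∈ R, ∃ x ∈ F, a = g • x}

theorem sub_sp (R : Subalgebra A B) (F : Set M) : F ⊆ (sp R F : Set M) := fun x hx =>
  Submodule.subset_span ⟨1, R.one_mem, x, hx, (one_smul B x).symm⟩

theorem st_sp (R : Subalgebra A B) (F : Set M) : St R (sp R F) := by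
  intro r hr x hx
  have h : sp R F ≤ (sp R F).comap (mu r) := by
    refine Submodule.span_le.2 ?_
    rintro a ⟨g, hg, y, hy, rfl⟩
    show r • (g • y) ∈ sp R F
    rw [← mul_smul]
    exact Submodule.subset_span ⟨r * g, R.mul_mem hr hg, y, hy, rfl⟩
  exact h hx

theorem sp_le {R : Subalgebra A B} {F : Set M} {N : Submodule A M} (h : St R N)
    (hF : F ⊆ (N : Set M)) : sp R F ≤ N := by
  refine Submodule.span_le.2 ?_
  rintro a ⟨g, hg, y, hy, rfl⟩
  exact h g hg y (hF hy)

/-- a stable submodule as a submodule over the subalgebra -/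
def toR {R : Subalgebra A B} {N : Submodule A M} (h : St R N) : Submodule R M where
  carrier := N
  add_mem' := N.add_mem
  zero_mem' := N.zero_mem
  smul_mem' := fun r x hx => h (r : B) r.2 x hx

theorem mem_toR {R : Subalgebra A B} {N : Submodule A M} (h : St R N) (x : M) :
    x ∈ toR h ↔ x ∈ N := Iff.rfl

theorem noe (R : Subalgebra A B) [IsNoetherianRing R] (F : Set M) (hF : F.Finite)
    (X : Submodule A M) (hX : St R X) (L : ℕ → Submodule A M) (hL : Monotone L)
    (hL1 : ∀ n, X ≤ L n) (hL2 : ∀ n, L n ≤ X ⊔ sp R F) (hL3 : ∀ n, St R (L n)) :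
    ∃ n0, ∀ n, n0 ≤ n → L n = L n0 := by
  obtain ⟨X', hX'⟩ : ∃ X' : Submodule R M, X' = toR hX := ⟨_, rfl⟩
  have hmX : ∀ x, x ∈ X' ↔ x ∈ X := fun x => by rw [hX']; exact Iff.rfl
  obtain ⟨Q, hQ⟩ : ∃ Q : Submodule R (M ⧸ X'), Q = Submodule.span R (X'.mkQ '' F) := ⟨_, rfl⟩
  have hNQ : IsNoetherian R Q := by
    rw [hQ]
    exact isNoetherian_span_of_finite R (hF.image _)
  have hmem : ∀ m ∈ X ⊔ sp R F, X'.mkQ m ∈ Q := by
    intro m hm
    rw [Submodule.mem_sup] at hm
    obtain ⟨x, hx, y, hy, rfl⟩ := hm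
    rw [map_add]
    have h1 : X'.mkQ x = 0 := by
      rw [Submodule.mkQ_apply, Submodule.Quotient.mk_eq_zero, hmX]
      exact hx
    rw [h1, zero_add]
    refine Submodule.span_induction (p := fun y _ => X'.mkQ y ∈ Q) ?_ ?_ ?_ ?_ hy
    · rintro a ⟨g, hg, z, hz, rfl⟩
      have h2 : X'.mkQ (g • z) = (⟨g, hg⟩ : R) • X'.mkQ z := by
        rw [← map_smul]
        rfl
      rw [h2, hQ]
      exact Submodule.smul_mem _ _ (Submodule.subset_span ⟨z, hz, rfl⟩)
    · rw [map_zero]
      exact Q.zero_mem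
    · intro a b _ _ ha hb
      rw [map_add]
      exact Q.add_mem ha hb
    · intro c a _ ha
      have h2 : X'.mkQ (c • a) = (algebraMap A R c) • X'.mkQ a := by
        rw [← map_smul]
        congr 1
        exact (algebraMap_smul B c a).symm
      rw [h2]
      exact Q.smul_mem _ ha
  let G : ℕ →o Submodule R Q :=
    { toFun := fun n => Submodule.comap Q.subtype (Submodule.map X'.mkQ (toR (hL3 n)))
      monotone' := fun n m hnm =>
        Submodule.comap_mono (Submodule.map_mono fun x hx => hL hnm hx) }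
  obtain ⟨n0, hn0⟩ := monotone_stabilizes_iff_noetherian.mpr hNQ G
  refine ⟨n0, fun n hn => le_antisymm ?_ (hL hn)⟩
  intro m hm
  have h1 : (⟨X'.mkQ m, hmem m (hL2 n hm)⟩ : Q) ∈ G n := ⟨m, hm, rfl⟩
  rw [← hn0 n hn] at h1
  obtain ⟨m', hm', h2⟩ := h1
  have h3 : X'.mkQ m' = X'.mkQ m := h2
  have h4 : m - m' ∈ X := by
    rw [← hmX, ← Submodule.Quotient.mk_eq_zero, ← Submodule.mkQ_apply, map_sub, h3, sub_self]
  have h5 := (L n0).add_mem (hL1 n0 h4) hm'
  rwa [sub_add_cancel] at h5

/-- the partial sums -/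
def Sq (t : B) (X N : Submodule A M) : ℕ → Submodule A M
  | 0 => X
  | n + 1 => Sq t X N n ⊔ N.map (mu (t ^ n))

theorem Sq_mono (t : B) (X N : Submodule A M) : Monotone (Sq t X N) :=
  monotone_nat_of_le_succ fun _ => le_sup_left

theorem Sq_t (t : B) (X N : Submodule A M) (hX : ∀ x ∈ X, t • x ∈ X) (n : ℕ) :
    ∀ y ∈ Sq t X N n, t • y ∈ Sq t X N (n + 1) := by
  induction n with
  | zero =>
    intro y hy
    exact Submodule.mem_sup_left (hX y hy)
  | succ n ih =>
    intro y hy
    have hy' : y ∈ Sq t X N n ⊔ N.map (mu (t ^ n)) := hy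
    rw [Submodule.mem_sup] at hy'
    obtain ⟨a, ha, z, ⟨m, hm, rfl⟩, rfl⟩ := hy'
    rw [smul_add]
    refine Submodule.add_mem _ (Submodule.mem_sup_left (ih a ha)) (Submodule.mem_sup_right ?_)
    refine ⟨m, hm, ?_⟩
    rw [mu_apply, mu_apply, ← mul_smul, ← pow_succ']

theorem Sq_St {R : Subalgebra A B} (t : B) {X N : Submodule A M} (hX : St R X) (hN : St R N)
    (n : ℕ) : St R (Sq t X N n) := by
  induction n with
  | zero => exact hX
  | succ n ih =>
    refine St.sup ih ?_
    rintro r hr _ ⟨m, hm, rfl⟩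
    refine ⟨r • m, hN r hr m hm, ?_⟩
    rw [mu_apply, mu_apply, ← mul_smul, ← mul_smul, mul_comm]

theorem gfree_adjoin [IsDomain A] [IsNoetherianRing A] (S : Finset B) :
    ∀ X Y : Submodule A M, St (Algebra.adjoin A (S : Set B)) X →
    (∃ F : Set M, F.Finite ∧ Y = X ⊔ sp (Algebra.adjoin A (S : Set B)) F) →
    ∃ τ : A, τ ≠ 0 ∧ GF τ X Y := by
  classical
  induction S using Finset.induction_on with
  | empty =>
    rintro X Y - ⟨F, hF, rfl⟩
    obtain ⟨τ, hτ, h⟩ := GF.fin X hF.toFinset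
    have e : sp (Algebra.adjoin A ((∅ : Finset B) : Set B)) F =
        Submodule.span A (hF.toFinset : Set M) := by
      apply le_antisymm
      · refine Submodule.span_le.2 ?_
        rintro a ⟨g, hg, y, hy, rfl⟩
        rw [Finset.coe_empty, Algebra.adjoin_empty, Algebra.mem_bot] at hg
        obtain ⟨c, rfl⟩ := hg
        rw [algebraMap_smul]
        exact Submodule.smul_mem _ _ (Submodule.subset_span (by simpa using hy))
      · exact Submodule.span_le.2 fun y hy => sub_sp _ _ (by simpa using hy)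
    rw [e]
    exact ⟨τ, hτ, h⟩
  | insert t S _ ih =>
    rintro X Y hX ⟨F, hF, rfl⟩
    obtain ⟨R, hRdef⟩ : ∃ R, R = Algebra.adjoin A (S : Set B) := ⟨_, rfl⟩
    obtain ⟨K, hKdef⟩ : ∃ K, K = Algebra.adjoin A ((insert t S : Finset B) : Set B) := ⟨_, rfl⟩
    rw [← hRdef] at ih
    rw [← hKdef] at hX ⊢
    have hRK : R ≤ K := by
      rw [hRdef, hKdef]
      exact Algebra.adjoin_mono (by simp)
    have ht : t ∈ K := by
      rw [hKdef]
      exact Algebra.subset_adjoin (by simp)
    have hnR : IsNoetherianRing R := isNoetherianRing_of_fg ⟨S, hRdef.symm⟩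
    have hXR : St R X := fun r hr => hX r (hRK hr)
    have hXt : ∀ x ∈ X, t • x ∈ X := hX t ht
    obtain ⟨N, hN⟩ : ∃ N, N = X ⊔ sp R F := ⟨_, rfl⟩
    have hXN : X ≤ N := hN ▸ le_sup_left
    have hNR : St R N := by
      rw [hN]
      exact St.sup hXR (st_sp R F)
    have hYK : St K (X ⊔ sp K F) := St.sup hX (st_sp K F)
    have hNY : N ≤ X ⊔ sp K F := by
      rw [hN]
      refine sup_le_sup_left ?_ _
      exact sp_le (fun r hr => st_sp K F r (hRK hr)) (sub_sp K F)
    -- the modules of leading coefficients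
    obtain ⟨L, hLdef⟩ : ∃ L : ℕ → Submodule A M, ∀ n, L n = N ⊓ (Sq t X N n).comap (mu (t ^ n)) :=
      ⟨_, fun _ => rfl⟩
    have hL : ∀ n m, m ∈ L n ↔ m ∈ N ∧ t ^ n • m ∈ Sq t X N n := by
      intro n m
      rw [hLdef]
      exact Iff.rfl
    have hLmono : Monotone L := by
      refine monotone_nat_of_le_succ fun n m hm => ?_
      rw [hL] at hm ⊢
      refine ⟨hm.1, ?_⟩
      rw [pow_succ', mul_smul]
      exact Sq_t t X N hXt n _ hm.2
    have hpow : ∀ n : ℕ, ∀ x ∈ X, t ^ n • x ∈ X := by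
      intro n x hx
      exact hX _ (K.pow_mem ht n) x hx
    have hXL : ∀ n, X ≤ L n := by
      intro n x hx
      rw [hL]
      exact ⟨hXN hx, Sq_mono t X N (Nat.zero_le n) (hpow n x hx)⟩
    have hLN : ∀ n, L n ≤ N := fun n m hm => ((hL n m).1 hm).1
    have hLR : ∀ n, St R (L n) := by
      intro n r hr m hm
      rw [hL] at hm ⊢
      refine ⟨hNR r hr m hm.1, ?_⟩
      have h1 := Sq_St t hXR hNR n r hr _ hm.2
      rwa [← mul_smul, mul_comm, mul_smul] at h1
    obtain ⟨n0, hn0⟩ := noe R F hF X hXR L hLmono hXL (fun n => hN ▸ hLN n) hLR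
    have hIH : ∀ n, ∃ τ : A, τ ≠ 0 ∧ GF τ (L n) N := by
      intro n
      refine ih (L n) N (hLR n) ⟨F, hF, ?_⟩
      apply le_antisymm
      · rw [hN]
        exact sup_le_sup_right (hXL n) _
      · refine sup_le (hLN n) ?_
        rw [hN]
        exact le_sup_right
    choose τs hτs hGFs using hIH
    have hτ1 : ∏ i ∈ Finset.range (n0 + 1), τs i ≠ 0 :=
      Finset.prod_ne_zero_iff.2 fun i _ => hτs i
    have hG1 : ∀ n, GF (∏ i ∈ Finset.range (n0 + 1), τs i) (L n) N := by
      intro n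
      by_cases h : n ≤ n0
      · exact (hGFs n).dvd (Finset.dvd_prod_of_mem τs (Finset.mem_range.2 (by omega)))
      · rw [hn0 n (by omega)]
        exact (hGFs n0).dvd (Finset.dvd_prod_of_mem τs (Finset.mem_range.2 (by omega)))
    have hG2 : ∀ n, GF (∏ i ∈ Finset.range (n0 + 1), τs i) (Sq t X N n) (Sq t X N (n + 1)) := by
      intro n
      refine gf_map (hG1 n) (mu (t ^ n)) ?_
      intro m hm
      rw [hL]
      exact ⟨fun h => h.2, fun h => ⟨hm, h⟩⟩
    have hG3 := GF.chain (Sq t X N) (fun n => Sq_mono t X N (Nat.le_succ n)) hG2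
    have hmem : ∀ y, y ∈ (⨆ n, Sq t X N n) ↔ ∃ n, y ∈ Sq t X N n := fun y =>
      Submodule.mem_iSup_of_directed _ (Sq_mono t X N).directed_le
    have hSY : ∀ n, Sq t X N n ≤ X ⊔ sp K F := by
      intro n
      induction n with
      | zero => exact le_sup_left
      | succ n ihn =>
        refine sup_le ihn ?_
        rintro _ ⟨m, hm, rfl⟩
        exact hYK _ (K.pow_mem ht n) m (hNY hm)
    have hUR : ∀ r ∈ R, ∀ y ∈ (⨆ n, Sq t X N n), r • y ∈ (⨆ n, Sq t X N n) := by
      intro r hr y hy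
      rw [hmem] at hy ⊢
      obtain ⟨n, hy⟩ := hy
      exact ⟨n, Sq_St t hXR hNR n r hr y hy⟩
    have hUt : ∀ y ∈ (⨆ n, Sq t X N n), t • y ∈ (⨆ n, Sq t X N n) := by
      intro y hy
      rw [hmem] at hy ⊢
      obtain ⟨n, hy⟩ := hy
      exact ⟨n + 1, Sq_t t X N hXt n y hy⟩
    have hUK : St K (⨆ n, Sq t X N n) := by
      intro g hg
      rw [hKdef] at hg
      refine Algebra.adjoin_induction (p := fun g _ => ∀ y ∈ (⨆ n, Sq t X N n),
        g • y ∈ (⨆ n, Sq t X N n)) ?_ ?_ ?_ ?_ hg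
      · intro g hg y hy
        rw [Finset.coe_insert] at hg
        rcases hg with rfl | hg
        · exact hUt y hy
        · refine hUR g ?_ y hy
          rw [hRdef]
          exact Algebra.subset_adjoin hg
      · intro c y hy
        rw [algebraMap_smul]
        exact Submodule.smul_mem _ _ hy
      · intro g g' _ _ h h' y hy
        rw [add_smul]
        exact Submodule.add_mem _ (h y hy) (h' y hy)
      · intro g g' _ _ h h' y hy
        rw [mul_smul]
        exact h _ (h' y hy)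
    have hFU : F ⊆ ((⨆ n, Sq t X N n : Submodule A M) : Set M) := by
      intro x hx
      refine (hmem x).2 ⟨1, Submodule.mem_sup_right ⟨x, ?_, ?_⟩⟩
      · rw [hN]
        exact Submodule.mem_sup_right (sub_sp R F hx)
      · rw [mu_apply, pow_zero, one_smul]
    have hU : (⨆ n, Sq t X N n) = X ⊔ sp K F := by
      apply le_antisymm
      · exact iSup_le hSY
      · exact sup_le (le_iSup (Sq t X N) 0) (sp_le hUK hFU)
    rw [hU] at hG3
    exact ⟨_, hτ1, hG3⟩

end Gen

theorem free_of_gf {A M : Type} [CommRing A] [AddCommGroup M] [Module A M] (τ : A)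
    (h : GF τ (⊥ : Submodule A M) ⊤) :
    Module.Free (Localization.Away τ) (LocalizedModule (Submonoid.powers τ) M) := by
  classical
  obtain ⟨C, _, h1, h2⟩ := h
  have hv0 : LinearIndepOn A id C := by
    rw [linearIndepOn_iff]
    intro l hl hl0
    exact h1 l hl hl0
  have hv : LinearIndependent A (fun x : C => (x : M)) := hv0
  have hli := hv.of_isLocalizedModule (Localization.Away τ) (Submonoid.powers τ)
    (LocalizedModule.mkLinearMap (Submonoid.powers τ) M)
  refine Module.Free.of_basis (Module.Basis.mk hli ?_)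
  obtain ⟨U, hU⟩ : ∃ U, U = Submodule.span (Localization.Away τ) (Set.range
      (LocalizedModule.mkLinearMap (Submonoid.powers τ) M ∘ fun x : C => (x : M))) := ⟨_, rfl⟩
  rw [← hU]
  have hunit : ∀ c ∈ Submonoid.powers τ, ∀ x : LocalizedModule (Submonoid.powers τ) M,
      c • x ∈ U → x ∈ U := by
    intro c hc x hx
    rw [← algebraMap_smul (Localization.Away τ)] at hx
    exact (Submodule.smul_mem_iff_of_isUnit U
      (IsLocalization.map_units (Localization.Away τ) (⟨c, hc⟩ : Submonoid.powers τ))).1 hx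
  have hlc : ∀ l : M →₀ A, (l.support : Set M) ⊆ C →
      LocalizedModule.mkLinearMap (Submonoid.powers τ) M (lc l) ∈ U := by
    intro l hl
    rw [lc, Finsupp.linearCombination_apply, Finsupp.sum, map_sum]
    refine Submodule.sum_mem _ fun a ha => ?_
    rw [map_smul, ← algebraMap_smul (Localization.Away τ)]
    refine Submodule.smul_mem _ _ ?_
    rw [hU]
    exact Submodule.subset_span ⟨⟨a, hl ha⟩, rfl⟩
  intro x _
  obtain ⟨⟨m, s⟩, hms⟩ := IsLocalizedModule.surj (Submonoid.powers τ)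
    (LocalizedModule.mkLinearMap (Submonoid.powers τ) M) x
  refine hunit s s.2 x ?_
  have hms' : (s : A) • x = LocalizedModule.mkLinearMap (Submonoid.powers τ) M m := hms
  rw [hms']
  obtain ⟨k, l, hl, hk⟩ := h2 m Submodule.mem_top
  refine hunit (τ ^ k) ⟨k, rfl⟩ _ ?_
  rw [← map_smul]
  have h3 : τ ^ k • m = lc l := by
    rw [← sub_eq_zero]
    exact (Submodule.mem_bot A).1 hk
  rw [h3]
  exact hlc l hl

/-- Grothendieck's generic freeness -/
theorem t_GFREE : S_GFREE := by
  intro A B M _ _ _ _ _ hft _ _ _ _ hfin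
  obtain ⟨S, hS⟩ := hft.out
  obtain ⟨F, hF⟩ := hfin.fg_top
  obtain ⟨τ, hτ, h⟩ := gfree_adjoin (A := A) (B := B) (M := M) S ⊥ ⊤ (by
    intro r _ x hx
    rw [Submodule.mem_bot] at hx ⊢
    rw [hx, smul_zero]) ⟨F, F.finite_toSet, by
      rw [hS, bot_sup_eq]
      symm
      rw [eq_top_iff]
      have h1 : Submodule.span B (F : Set M) ≤
          { carrier := (sp (⊤ : Subalgebra A B) (F : Set M) : Set M)
            add_mem' := fun ha hb => Submodule.add_mem _ ha hb
            zero_mem' := Submodule.zero_mem _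
            smul_mem' := fun b x hx => st_sp (⊤ : Subalgebra A B) (F : Set M) b
              Algebra.mem_top x hx } :=
        Submodule.span_le.2 (sub_sp _ _)
      rw [hF] at h1
      exact fun x _ => h1 Submodule.mem_top⟩
  exact ⟨τ, hτ, free_of_gf τ h⟩

end Pool.Agent.H97.VS
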